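import Pool.Agent.Q266.RP.Stm

/-!
# Trace zero

`trz`: if `h x h⁻¹ = x t` and `t` acts by a scalar different from `1`, then the trace of `x` is zero.
-/

namespace Pool.Agent.Q259.RP

open Pool.Agent.Q266.RP

theorem trz : S_TRZ := by
  intro G V _ _ _ _ ρ x h t c ht hc hx
  have h1 : LinearMap.trace ℂ V (ρ (h * x * h⁻¹)) = LinearMap.trace ℂ V (ρ x) := by
    rw [map_mul, LinearMap.trace_mul_comm, ← map_mul]
    congr 2
    group
  have h2 : ρ (x * t) = c • ρ x := by
    ext v
    rw [map_mul, Module.End.mul_apply, ht, map_smul, LinearMap.smul_apply]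
  rw [hx, h2, map_smul, smul_eq_mul] at h1
  have h3 : (c - 1) * LinearMap.trace ℂ V (ρ x) = 0 := by
    rw [sub_mul, one_mul, h1, sub_self]
  rcases mul_eq_zero.mp h3 with h4 | h4
  · exact absurd (sub_eq_zero.mp h4) hc
  · exact h4

end Pool.Agent.Q259.RP
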